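import Mathlib

/-!
# Points over finite fields and the Frobenius permutation
-/

set_option autoImplicit false

open scoped LinearAlgebra.Projectivization

namespace Pool.Agent.Y179.PE

section basic

variable {k : Type} [Field k] {n : ℕ}

/-- homogeneous polynomials -/
theorem hom_smul {E : Type} [Field E] {f : MvPolynomial (Fin (n + 1)) k} {d : ℕ}
    (hf : f.IsHomogeneous d) (ι : k →+* E) (c : E) (v : Fin (n + 1) → E) :
    f.eval₂ ι (c • v) = c ^ d * f.eval₂ ι v := by
  rw [MvPolynomial.eval₂_eq', MvPolynomial.eval₂_eq', Finset.mul_sum]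
  refine Finset.sum_congr rfl fun m hm => ?_
  have h1 : ∑ i, m i = d := by
    have h := hf (MvPolynomial.mem_support_iff.1 hm)
    rw [Finsupp.weight_apply, Finsupp.sum_fintype _ _ (fun _ => by simp)] at h
    simpa using h
  simp only [Pi.smul_apply, smul_eq_mul, mul_pow, Finset.prod_mul_distrib,
    Finset.prod_pow_eq_pow_sum, h1]
  ring

/-- The points of the variety defined by `I`. -/
def Pts (E : Type) [Field E] (ι : k →+* E) (I : Set (MvPolynomial (Fin (n + 1)) k)) :
    Set (ℙ E (Fin (n + 1) → E)) :=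
  {y | ∀ f ∈ I, f.eval₂ ι y.rep = 0}

variable {E : Type} [Field E] {E' : Type} [Field E']

theorem mem_mk {J : Set (MvPolynomial (Fin (n + 1)) k)} (hJ : ∀ f ∈ J, ∃ d, f.IsHomogeneous d)
    (ι : k →+* E) (v : Fin (n + 1) → E) (hv : v ≠ 0) :
    Projectivization.mk E v hv ∈ Pts E ι J ↔ ∀ f ∈ J, f.eval₂ ι v = 0 := by
  obtain ⟨a, ha⟩ := Projectivization.exists_smul_eq_mk_rep E v hv
  have key : ∀ f ∈ J, (f.eval₂ ι (Projectivization.mk E v hv).rep = 0 ↔ f.eval₂ ι v = 0) := by
    intro f hf
    obtain ⟨d, hd⟩ := hJ f hf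
    rw [← ha]
    have h1 : a • v = (a : E) • v := rfl
    rw [h1, hom_smul hd, mul_eq_zero]
    constructor
    · rintro (h | h)
      · exact absurd h (pow_ne_zero d a.ne_zero)
      · exact h
    · exact Or.inr
  constructor
  · intro h f hf
    exact (key f hf).1 (h f hf)
  · intro h f hf
    exact (key f hf).2 (h f hf)

/-- coordinatewise application of a homomorphism of fields -/
def vm (j : E' →+* E) (n : ℕ) : (Fin (n + 1) → E') →ₛₗ[j] (Fin (n + 1) → E) where
  toFun v := fun i => j (v i)
  map_add' v w := by ext i; simp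
  map_smul' c v := by ext i; simp

theorem vm_inj (j : E' →+* E) (n : ℕ) : Function.Injective (vm j n) := by
  intro v w h
  ext i
  exact j.injective (congrFun h i)

/-- the induced map of projective spaces -/
noncomputable def pm (j : E' →+* E) (n : ℕ) :
    ℙ E' (Fin (n + 1) → E') → ℙ E (Fin (n + 1) → E) :=
  Projectivization.map (vm j n) (vm_inj j n)

theorem vm_ne (j : E' →+* E) {v : Fin (n + 1) → E'} (hv : v ≠ 0) :
    (fun i => j (v i)) ≠ (0 : Fin (n + 1) → E) := by
  intro h
  apply hv
  ext i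
  have := congrFun h i
  exact (map_eq_zero j).1 this

theorem pm_mk (j : E' →+* E) (v : Fin (n + 1) → E') (hv : v ≠ 0) :
    pm j n (Projectivization.mk E' v hv) =
      Projectivization.mk E (fun i => j (v i)) (vm_ne j hv) := rfl

theorem pm_inj (j : E' →+* E) (n : ℕ) : Function.Injective (pm j n) := by
  intro y1 y2 h
  induction y1 with
  | h v hv =>
    induction y2 with
    | h w hw =>
      rw [pm_mk, pm_mk, Projectivization.mk_eq_mk_iff'] at h
      rw [Projectivization.mk_eq_mk_iff']
      obtain ⟨a, ha⟩ := h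
      obtain ⟨i0, hi0⟩ := Function.ne_iff.1 hw
      have hi0' : w i0 ≠ 0 := hi0
      refine ⟨v i0 / w i0, ?_⟩
      have h0 : a * j (w i0) = j (v i0) := congrFun ha i0
      have hj : j (w i0) ≠ 0 := (map_ne_zero j).2 hi0'
      have ha' : a = j (v i0 / w i0) := by
        rw [map_div₀, eq_div_iff hj]
        exact h0
      ext i
      apply j.injective
      have hi : a * j (w i) = j (v i) := congrFun ha i
      rw [Pi.smul_apply, smul_eq_mul, map_mul, ← ha', hi]

theorem pm_mem {J : Set (MvPolynomial (Fin (n + 1)) k)} (hJ : ∀ f ∈ J, ∃ d, f.IsHomogeneous d)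
    (j : E' →+* E) {ι : k →+* E} {ι' : k →+* E'} (h : j.comp ι' = ι)
    (y : ℙ E' (Fin (n + 1) → E')) : pm j n y ∈ Pts E ι J ↔ y ∈ Pts E' ι' J := by
  induction y with
  | h v hv =>
    rw [pm_mk, mem_mk hJ, mem_mk hJ]
    have key : ∀ f : MvPolynomial (Fin (n + 1)) k,
        (f.eval₂ ι (fun i => j (v i)) = 0 ↔ f.eval₂ ι' v = 0) := by
      intro f
      have h1 : f.eval₂ ι (fun i => j (v i)) = j (f.eval₂ ι' v) := by
        rw [MvPolynomial.eval₂_comp_left, h]
        rfl
      rw [h1, map_eq_zero]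
    constructor
    · intro h2 f hf
      exact (key f).1 (h2 f hf)
    · intro h2 f hf
      exact (key f).2 (h2 f hf)

theorem pm_iter {φ : E →+* E} {q : ℕ} (hφ : ∀ x, φ x = x ^ q) (r : ℕ) (v : Fin (n + 1) → E)
    (hv : v ≠ 0) : ∃ hv' : (fun i => v i ^ (q ^ r)) ≠ (0 : Fin (n + 1) → E),
      (pm φ n)^[r] (Projectivization.mk E v hv) =
        Projectivization.mk E (fun i => v i ^ (q ^ r)) hv' := by
  induction r with
  | zero =>
    have e : (fun i => v i ^ (q ^ 0)) = v := by
      ext i
      simp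
    refine ⟨by rw [e]; exact hv, ?_⟩
    simp [e]
  | succ r ih =>
    obtain ⟨hv', h⟩ := ih
    have e : (fun i => φ (v i ^ (q ^ r))) = fun i => v i ^ (q ^ (r + 1)) := by
      ext i
      rw [hφ, ← pow_mul, pow_succ]
    have hne : (fun i => v i ^ (q ^ (r + 1))) ≠ (0 : Fin (n + 1) → E) := by
      rw [← e]
      exact vm_ne φ hv'
    refine ⟨hne, ?_⟩
    rw [Function.iterate_succ_apply', h, pm_mk]
    congr 1

/-- the elements fixed by the power of the Frobenius -/
theorem range_j [Finite E'] (j : E' →+* E) {Q : ℕ} (hQ : Nat.card E' = Q) {x : E}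
    (hx : x ^ Q = x) : ∃ x' : E', j x' = x := by
  classical
  have : Fintype E' := Fintype.ofFinite E'
  rw [Nat.card_eq_fintype_card] at hQ
  have h1 : 1 < Q := hQ ▸ Fintype.one_lt_card
  have hne := FiniteField.X_pow_card_sub_X_ne_zero E h1
  have hdeg := FiniteField.X_pow_card_sub_X_natDegree_eq E h1
  set f : Polynomial E := Polynomial.X ^ Q - Polynomial.X with hf
  have hroot : ∀ y : E, y ∈ f.roots.toFinset ↔ y ^ Q = y := by
    intro y
    rw [Multiset.mem_toFinset, Polynomial.mem_roots hne, Polynomial.IsRoot.def, hf,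
      Polynomial.eval_sub, Polynomial.eval_pow, Polynomial.eval_X, sub_eq_zero]
  have hsub : (Finset.univ.image (fun x' : E' => j x')) ⊆ f.roots.toFinset := by
    intro y hy
    obtain ⟨x', -, rfl⟩ := Finset.mem_image.1 hy
    rw [hroot, ← map_pow, ← hQ, FiniteField.pow_card]
  have hcard : f.roots.toFinset.card ≤ (Finset.univ.image (fun x' : E' => j x')).card := by
    rw [Finset.card_image_of_injective _ j.injective, Finset.card_univ, hQ]
    calc f.roots.toFinset.card ≤ Multiset.card f.roots := Multiset.toFinset_card_le _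
      _ ≤ f.natDegree := Polynomial.card_roots' f
      _ = Q := hdeg
  have heq := Finset.eq_of_subset_of_card_le hsub hcard
  have hx2 : x ∈ f.roots.toFinset := (hroot x).2 hx
  rw [← heq] at hx2
  obtain ⟨x', -, h⟩ := Finset.mem_image.1 hx2
  exact ⟨x', h⟩

end basic

theorem finrank_of_card {k : Type} [Field k] [Finite k] {E : Type} [Field E] [Finite E]
    [Algebra k E] {M : ℕ} (h : Nat.card E = Nat.card k ^ M) : Module.finrank k E = M := by
  have : Module.Finite k E := Module.Finite.of_finite
  have h1 := Module.natCard_eq_pow_finrank (K := k) (V := E)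
  rw [h] at h1
  exact (Nat.pow_right_injective (Finite.one_lt_card (α := k)) h1).symm

theorem exists_j {k : Type} [Field k] [Finite k] {E : Type} [Field E] [Finite E]
    {E' : Type} [Field E'] [Finite E'] (ι : k →+* E) (ι' : k →+* E') {M r : ℕ}
    (hM : Nat.card E = Nat.card k ^ M) (hr : Nat.card E' = Nat.card k ^ r) (hd : r ∣ M) :
    ∃ j : E' →+* E, j.comp ι' = ι := by
  letI := ι.toAlgebra
  letI := ι'.toAlgebra
  have h1 : Module.finrank k E' ∣ Module.finrank k E := by
    rw [finrank_of_card hM, finrank_of_card hr]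
    exact hd
  obtain ⟨f⟩ := FiniteField.nonempty_algHom_of_finrank_dvd h1
  exact ⟨f.toRingHom, f.comp_algebraMap⟩

theorem fix_all (k : Type) [Field k] [Finite k] (n : ℕ) (J : Set (MvPolynomial (Fin (n + 1)) k))
    (hJ : ∀ f ∈ J, ∃ d, f.IsHomogeneous d) (M : ℕ) (E : Type) [Field E] [Finite E]
    (ι : k →+* E) (hE : Nat.card E = Nat.card k ^ M) :
    ∃ σ : Equiv.Perm (Pts E ι J), ∀ (r : ℕ) (E' : Type) [Field E'] [Finite E'] (ι' : k →+* E'),
      0 < r → r ∣ M → Nat.card E' = Nat.card k ^ r →
        Nat.card (Pts E' ι' J) = Nat.card {y : Pts E ι J // (σ ^ r) y = y} := by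
  classical
  have : Fintype k := Fintype.ofFinite k
  obtain ⟨φ, hφ, hφι⟩ : ∃ φ : E →+* E, (∀ x, φ x = x ^ Nat.card k) ∧ φ.comp ι = ι := by
    letI := ι.toAlgebra
    refine ⟨(FiniteField.frobeniusAlgHom k E).toRingHom, fun x => ?_, ?_⟩
    · rw [Nat.card_eq_fintype_card]
      rfl
    · exact (FiniteField.frobeniusAlgHom k E).comp_algebraMap
  set s : Pts E ι J → Pts E ι J := fun y => ⟨pm φ n y.1, (pm_mem hJ φ hφι y.1).2 y.2⟩ with hs
  have hsinj : Function.Injective s := by
    intro y1 y2 h
    apply Subtype.ext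
    exact pm_inj φ n (congrArg Subtype.val h)
  have hsbij : Function.Bijective s := Finite.injective_iff_bijective.1 hsinj
  set σ : Equiv.Perm (Pts E ι J) := Equiv.ofBijective s hsbij with hσ
  have hiter : ∀ (r : ℕ) (y : Pts E ι J), ((σ ^ r) y).1 = (pm φ n)^[r] y.1 := by
    intro r y
    induction r with
    | zero => rfl
    | succ r ih =>
      rw [pow_succ', Equiv.Perm.mul_apply, Function.iterate_succ_apply', ← ih]
      rfl
  refine ⟨σ, ?_⟩
  intro r E' _ _ ι' hr0 hrM hE'
  obtain ⟨j, hj⟩ := exists_j ι ι' hE hE' hrM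
  have hfix : ∀ y' : Pts E' ι' J, (σ ^ r) ⟨pm j n y'.1, (pm_mem hJ j hj y'.1).2 y'.2⟩ =
      ⟨pm j n y'.1, (pm_mem hJ j hj y'.1).2 y'.2⟩ := by
    rintro ⟨y', hy'⟩
    apply Subtype.ext
    rw [hiter]
    induction y' with
    | h w hw =>
      simp only [pm_mk]
      obtain ⟨hv', h⟩ := pm_iter hφ r (fun i => j (w i)) (vm_ne j hw)
      rw [h]
      congr 1
      ext i
      have : Fintype E' := Fintype.ofFinite E'
      rw [← map_pow, ← hE', Nat.card_eq_fintype_card, FiniteField.pow_card]
  refine Nat.card_congr (Equiv.ofBijective (fun y' : Pts E' ι' J =>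
    (⟨⟨pm j n y'.1, (pm_mem hJ j hj y'.1).2 y'.2⟩, hfix y'⟩ :
      {y : Pts E ι J // (σ ^ r) y = y})) ⟨?_, ?_⟩)
  · intro y1 y2 h
    apply Subtype.ext
    exact pm_inj j n (congrArg (fun z => z.1.1) h)
  · rintro ⟨⟨y, hy⟩, hfy⟩
    have h1 : (pm φ n)^[r] y = y := by
      rw [← hiter r ⟨y, hy⟩, hfy]
    have h2 : ∃ y' : ℙ E' (Fin (n + 1) → E'), pm j n y' = y := by
      clear hfy hy
      induction y with
      | h v hv =>
        obtain ⟨i0, hi0⟩ := Function.ne_iff.1 hv
        have hi0' : v i0 ≠ 0 := hi0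
        set w : Fin (n + 1) → E := (v i0)⁻¹ • v with hw
        have hw0 : w i0 = 1 := by
          rw [hw, Pi.smul_apply, smul_eq_mul, inv_mul_cancel₀ hi0']
        have hwne : w ≠ 0 := by
          intro h
          rw [h] at hw0
          exact zero_ne_one hw0
        have hmk : Projectivization.mk E v hv = Projectivization.mk E w hwne := by
          rw [Projectivization.mk_eq_mk_iff']
          refine ⟨v i0, ?_⟩
          rw [hw, smul_smul, mul_inv_cancel₀ hi0', one_smul]
        rw [hmk] at h1 ⊢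
        obtain ⟨hv', h3⟩ := pm_iter hφ r w hwne
        rw [h3, Projectivization.mk_eq_mk_iff'] at h1
        obtain ⟨a, ha⟩ := h1
        have ha1 : a = 1 := by
          have := congrFun ha i0
          simp only [Pi.smul_apply, smul_eq_mul, hw0, one_pow, mul_one] at this
          exact this
        have hwi : ∀ i, ∃ x' : E', j x' = w i := by
          intro i
          refine range_j j hE' ?_
          have := congrFun ha i
          rw [ha1, one_smul] at this
          exact this.symm
        choose w' hw' using hwi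
        have hw'0 : w' ≠ 0 := by
          intro h
          apply hwne
          ext i
          rw [← hw' i, h]
          simp
        refine ⟨Projectivization.mk E' w' hw'0, ?_⟩
        rw [pm_mk]
        congr 1
        ext i
        exact hw' i
    obtain ⟨y', hy'⟩ := h2
    have hmem : y' ∈ Pts E' ι' J := by
      rw [← pm_mem hJ j hj, hy']
      exact hy
    refine ⟨⟨y', hmem⟩, ?_⟩
    apply Subtype.ext
    apply Subtype.ext
    exact hy'

end Pool.Agent.Y179.PE
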