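import Mathlib

/-!
# The exponential of the numbers of fixed points of the powers of permutations is integral
-/

set_option autoImplicit false

namespace Pool.Agent.Y179.PE

open PowerSeries

/-- numbers of fixed points of the powers of a permutation, by orbits -/
theorem fix_orbits (S : Type) [Finite S] (σ : Equiv.Perm S) :
    ∃ (Ω : Type) (_ : Fintype Ω) (d : Ω → ℕ), (∀ ω, 0 < d ω) ∧
      ∀ r : ℕ, Nat.card {y : S // (σ ^ r) y = y} = ∑ ω, if d ω ∣ r then d ω else 0 := by
  classical
  have : Fintype S := Fintype.ofFinite S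
  let R := MulAction.orbitRel (Subgroup.zpowers σ) S
  have : Fintype (Quotient R) := Fintype.ofFinite _
  let q : S → Quotient R := fun y => Quotient.mk R y
  -- the fibre of a class
  have hfib : ∀ y : S, (Finset.univ.filter (fun x => q x = q y)).card =
      Function.minimalPeriod σ y := by
    intro y
    have h1 : Function.minimalPeriod (fun x : S => σ • x) y =
        Fintype.card (MulAction.orbit (Subgroup.zpowers σ) y) :=
      MulAction.minimalPeriod_eq_card σ y
    have h2 : (fun x : S => σ • x) = σ := rfl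
    rw [h2] at h1
    rw [h1, ← Set.toFinset_card]
    congr 1
    ext x
    simp only [Finset.mem_filter, Finset.mem_univ, true_and, Set.mem_toFinset]
    constructor
    · intro h
      exact MulAction.orbitRel_apply.1 (Quotient.exact h)
    · intro h
      exact Quotient.sound (MulAction.orbitRel_apply.2 h)
  refine ⟨Quotient R, inferInstance, fun ω => (Finset.univ.filter (fun x => q x = ω)).card,
    ?_, ?_⟩
  · intro ω
    obtain ⟨y, rfl⟩ := Quotient.exists_rep ω
    exact Finset.card_pos.2 ⟨y, by simp [q]⟩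
  · intro r
    have h1 : Nat.card {y : S // (σ ^ r) y = y} =
        (Finset.univ.filter (fun y => (σ ^ r) y = y)).card := by
      rw [Nat.card_eq_fintype_card, Fintype.card_subtype]
    rw [h1, Finset.card_eq_sum_card_fiberwise (f := q) (t := Finset.univ)
      (fun _ _ => Finset.mem_coe.2 (Finset.mem_univ _))]
    refine Finset.sum_congr rfl fun ω _ => ?_
    obtain ⟨y, rfl⟩ := Quotient.exists_rep ω
    have hq : ∀ x : S, q x = Quotient.mk R y →
        ((σ ^ r) x = x ↔ (Finset.univ.filter (fun x => q x = Quotient.mk R y)).card ∣ r) := by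
      intro x hx
      rw [← hx, hfib x, ← Function.isPeriodicPt_iff_minimalPeriod_dvd]
      rw [Function.IsPeriodicPt, Function.IsFixedPt, Equiv.Perm.iterate_eq_pow]
    split_ifs with hd
    · congr 1
      ext x
      simp only [Finset.mem_filter, Finset.mem_univ, true_and, and_iff_right_iff_imp]
      intro hx
      exact (hq x hx).2 hd
    · rw [Finset.card_eq_zero, Finset.filter_eq_empty_iff]
      intro x hx hx2
      rw [Finset.mem_filter] at hx
      exact hd ((hq x hx2).1 hx.2)

/-- `X d/dX` -/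
noncomputable def th (F : PowerSeries ℤ) : PowerSeries ℤ := X * derivative ℤ F

theorem coeff_th (F : PowerSeries ℤ) (n : ℕ) : coeff n (th F) = n * coeff n F := by
  unfold th
  cases n with
  | zero => simp
  | succ n =>
    rw [coeff_succ_X_mul, coeff_derivative]
    push_cast
    ring

theorem th_mul (F G : PowerSeries ℤ) : th (F * G) = th F * G + F * th G := by
  unfold th
  rw [Derivation.leibniz, smul_eq_mul, smul_eq_mul]
  ring

theorem th_one : th 1 = 0 := by
  unfold th
  rw [Derivation.map_one_eq_zero, mul_zero]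

/-- the series `∑_{j ≥ 1} d X^{dj}` -/
noncomputable def gg (d : ℕ) : PowerSeries ℤ := PowerSeries.mk fun r =>
  if r ≠ 0 ∧ d ∣ r then (d : ℤ) else 0

theorem gg_spec (d : ℕ) (hd : 0 < d) : (1 - X ^ d) * gg d = C (d : ℤ) * X ^ d := by
  ext r
  rw [sub_mul, one_mul, map_sub, coeff_X_pow_mul', coeff_C_mul, coeff_X_pow]
  unfold gg
  rw [coeff_mk]
  by_cases hr : d ≤ r
  · rw [if_pos hr, coeff_mk]
    by_cases hrd : r = d
    · subst hrd
      simp [hd.ne']
    · have h0 : r ≠ 0 := by omega
      have h1 : r - d ≠ 0 := by omega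
      have h2 : d ∣ r - d ↔ d ∣ r := by
        constructor
        · intro h
          have := Nat.dvd_add h (dvd_refl d)
          rwa [Nat.sub_add_cancel hr] at this
        · intro h
          exact Nat.dvd_sub h (dvd_refl d)
      simp only [h0, h1, h2, ne_eq, not_false_eq_true, true_and, sub_self, if_neg hrd, mul_zero]
  · rw [if_neg hr]
    have h1 : ¬ (r ≠ 0 ∧ d ∣ r) := fun h => hr (Nat.le_of_dvd (Nat.pos_of_ne_zero h.1) h.2)
    have h2 : r ≠ d := by omega
    rw [if_neg h1, if_neg h2]
    simp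

/-- the series `(1 - X^d)^{-1}` -/
noncomputable def ff (d : ℕ) : PowerSeries ℤ := invOfUnit (1 - X ^ d) 1

theorem ff_spec (d : ℕ) (hd : 0 < d) : (1 - X ^ d) * ff d = 1 := by
  unfold ff
  refine mul_invOfUnit _ _ ?_
  simp [hd.ne']

theorem cc_ff (d : ℕ) : constantCoeff (ff d) = 1 := by
  unfold ff
  rw [constantCoeff_invOfUnit]
  simp

theorem th_ff (d : ℕ) (hd : 0 < d) : th (ff d) = ff d * gg d := by
  have h1 : th ((1 - X ^ d) * ff d) = 0 := by rw [ff_spec d hd, th_one]
  rw [th_mul] at h1
  have h2 : th (1 - X ^ d : PowerSeries ℤ) = -(C (d : ℤ) * X ^ d) := by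
    ext r
    rw [coeff_th, map_sub, map_neg, coeff_C_mul, coeff_X_pow, coeff_one]
    by_cases h0 : r = 0
    · subst h0
      have : (0 : ℕ) ≠ d := hd.ne
      simp [this]
    · by_cases hrd : r = d
      · subst hrd
        simp [h0]
      · simp [h0, hrd]
  rw [h2, ← gg_spec d hd] at h1
  have h3 : (1 - X ^ d) * (th (ff d) - ff d * gg d) = 0 := by
    linear_combination h1
  have h4 : ff d * ((1 - X ^ d) * (th (ff d) - ff d * gg d)) = 0 := by rw [h3, mul_zero]
  rw [← mul_assoc, mul_comm (ff d), ff_spec d hd, one_mul, sub_eq_zero] at h4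
  exact h4

theorem cc_prod {Ω : Type} (s : Finset Ω) (d : Ω → ℕ) :
    constantCoeff (∏ ω ∈ s, ff (d ω)) = 1 := by
  rw [map_prod]
  exact Finset.prod_eq_one fun ω _ => cc_ff _

theorem th_prod {Ω : Type} (s : Finset Ω) (d : Ω → ℕ) (hd : ∀ ω, 0 < d ω) :
    th (∏ ω ∈ s, ff (d ω)) = (∏ ω ∈ s, ff (d ω)) * ∑ ω ∈ s, gg (d ω) := by
  classical
  induction s using Finset.induction_on with
  | empty => simp [th_one]
  | insert a s ha ih =>
    rw [Finset.prod_insert ha, Finset.sum_insert ha, th_mul, ih, th_ff _ (hd a)]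
    ring

/-- one permutation -/
theorem int_one (S : Type) [Finite S] (σ : Equiv.Perm S) :
    ∃ P : PowerSeries ℤ, constantCoeff P = 1 ∧ ∀ n : ℕ, (n : ℤ) * coeff n P =
      ∑ i ∈ Finset.range n, coeff i P * (Nat.card {y : S // (σ ^ (n - i)) y = y} : ℤ) := by
  classical
  obtain ⟨Ω, hΩ, d, hd, hN⟩ := fix_orbits S σ
  refine ⟨∏ ω, ff (d ω), cc_prod _ _, fun n => ?_⟩
  rw [← coeff_th, th_prod _ _ hd, coeff_mul, Finset.Nat.sum_antidiagonal_eq_sum_range_succ_mk,
    Finset.sum_range_succ]
  have h0 : coeff (n - n) (∑ ω, gg (d ω)) = 0 := by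
    rw [Nat.sub_self, map_sum]
    refine Finset.sum_eq_zero fun ω _ => ?_
    simp [gg]
  rw [h0, mul_zero, add_zero]
  refine Finset.sum_congr rfl fun i hi => ?_
  rw [Finset.mem_range] at hi
  congr 1
  rw [hN, map_sum, Nat.cast_sum]
  refine Finset.sum_congr rfl fun ω _ => ?_
  have : n - i ≠ 0 := by omega
  simp only [gg, coeff_mk, this, ne_eq, not_false_eq_true, true_and]
  split_ifs <;> simp

/-- the theorem -/
theorem int_all (N : ℕ → ℕ) (hN : ∀ M : ℕ, 0 < M → ∃ (S : Type) (_ : Finite S) (σ : Equiv.Perm S),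
      ∀ r : ℕ, 0 < r → r ∣ M → N r = Nat.card {y : S // (σ ^ r) y = y}) :
    ∃ P : PowerSeries ℤ, constantCoeff P = 1 ∧
      ∀ n : ℕ, (n : ℤ) * coeff n P =
        ∑ i ∈ Finset.range n, coeff i P * (N (n - i) : ℤ) := by
  classical
  have hex : ∀ n : ℕ, ∃ P : PowerSeries ℤ, constantCoeff P = 1 ∧ ∀ m : ℕ, m ≤ n →
      (m : ℤ) * coeff m P = ∑ i ∈ Finset.range m, coeff i P * (N (m - i) : ℤ) := by
    intro n
    obtain ⟨S, hS, σ, hσ⟩ := hN n.factorial (Nat.factorial_pos n)
    obtain ⟨P, hP1, hP2⟩ := int_one S σ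
    refine ⟨P, hP1, fun m hm => ?_⟩
    rw [hP2 m]
    refine Finset.sum_congr rfl fun i hi => ?_
    rw [Finset.mem_range] at hi
    rw [hσ (m - i) (by omega) (Nat.dvd_factorial (by omega) (by omega))]
  choose P hP1 hP2 using hex
  have huniq : ∀ m n : ℕ, m ≤ n → coeff m (P n) = coeff m (P m) := by
    intro m
    induction m using Nat.strong_induction_on with
    | _ m ih =>
      intro n hmn
      rcases Nat.eq_zero_or_pos m with rfl | hm
      · have h1 := hP1 n
        have h2 := hP1 0
        rw [← coeff_zero_eq_constantCoeff_apply] at h1 h2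
        rw [h1, h2]
      · have h1 := hP2 n m hmn
        have h2 := hP2 m m le_rfl
        have h3 : ∑ i ∈ Finset.range m, coeff i (P n) * (N (m - i) : ℤ) =
            ∑ i ∈ Finset.range m, coeff i (P m) * (N (m - i) : ℤ) := by
          refine Finset.sum_congr rfl fun i hi => ?_
          rw [Finset.mem_range] at hi
          rw [ih i hi n (by omega), ih i hi m (by omega)]
        rw [h3, ← h2] at h1
        have hm0 : (m : ℤ) ≠ 0 := by exact_mod_cast hm.ne'
        exact mul_left_cancel₀ hm0 h1
  refine ⟨PowerSeries.mk fun n => coeff n (P n), ?_, fun n => ?_⟩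
  · rw [← coeff_zero_eq_constantCoeff_apply, coeff_mk, coeff_zero_eq_constantCoeff_apply]
    exact hP1 0
  · rw [coeff_mk, hP2 n n le_rfl]
    refine Finset.sum_congr rfl fun i hi => ?_
    rw [Finset.mem_range] at hi
    rw [coeff_mk, huniq i n hi.le]

end Pool.Agent.Y179.PE
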