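import Pool.Agent.Y701.PE.Stm
import Pool.Agent.Y179.PE.Fix1
import Pool.Agent.Y179.PE.Int1

/-!
# The statements `S_FIX` and `S_INT` of project PE
-/

set_option autoImplicit false

namespace Pool.Agent.Y179.PE

theorem t_FIX : Pool.Agent.Y701.PE.S_FIX :=
  fun k _ _ n J hJ M E _ _ ι _ hE => fix_all k n J hJ M E ι hE

theorem t_INT : Pool.Agent.Y701.PE.S_INT := fun N hN => int_all N hN

end Pool.Agent.Y179.PE
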